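import Mathlib
import Pool.Agent.Work.MP_877ce7_an.B18

/-!
# Eclipse sequences of hyperbolic solutions of the planar three-body problem

For all positive masses, the reduced eclipse sequences of hyperbolic (hyperbolic at both ends)
solutions with finitely many eclipses have uniformly bounded length.
-/

set_option autoImplicit false

open Filter Topology

namespace Pool.Agent.Results.MP_877ce7_an.BoundedEclipses

/-- A configuration (the positions of bodies `0, 1, 2` in the plane `ℂ`) is collision-free. -/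
def CollisionFree (x : Fin 3 → ℂ) : Prop := ∀ a b, a ≠ b → x a ≠ x b

/-- The mass norm of a configuration. -/
noncomputable def massNorm (m : Fin 3 → ℝ) (x : Fin 3 → ℂ) : ℝ :=
  Real.sqrt (∑ a, m a * ‖x a‖ ^ 2)

/-- The total energy of the motion `q` at time `t`. -/
noncomputable def energy (m : Fin 3 → ℝ) (q : ℝ → Fin 3 → ℂ) (t : ℝ) : ℝ :=
  1 / 2 * ∑ a, m a * ‖deriv (fun s => q s a) t‖ ^ 2 -
    ∑ a, ∑ b ∈ Finset.Ioi a, m a * m b / ‖q t a - q t b‖

/-- `q` is a collision-free solution of the planar Newtonian three-body problem, defined for all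
times, with centre of mass at the origin. -/
structure IsSolution (m : Fin 3 → ℝ) (q : ℝ → Fin 3 → ℂ) : Prop where
  centre : ∀ t, ∑ a, m a • q t a = 0
  collisionFree : ∀ t, CollisionFree (q t)
  smooth : ∀ a, ContDiff ℝ 2 (fun t => q t a)
  newton : ∀ t a, m a • deriv (deriv (fun s => q s a)) t =
    ∑ b ∈ Finset.univ.erase a, (m a * m b / ‖q t b - q t a‖ ^ 3) • (q t b - q t a)

/-- `q` is a hyperbolic solution: a collision-free solution on the whole time axis, with positive
energy, whose normalized configuration has collision-free limits at both ends. -/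
structure IsHyperbolic (m : Fin 3 → ℝ) (q : ℝ → Fin 3 → ℂ) : Prop where
  solution : IsSolution m q
  energy_pos : 0 < energy m q 0
  past : ∃ s : Fin 3 → ℂ, CollisionFree s ∧
    Tendsto (fun t => (1 / massNorm m (q t)) • q t) atBot (𝓝 s)
  future : ∃ s : Fin 3 → ℂ, CollisionFree s ∧
    Tendsto (fun t => (1 / massNorm m (q t)) • q t) atTop (𝓝 s)

/-- Body `a` lies (strictly) between the other two. -/
def EclipseLabel (x : Fin 3 → ℂ) (a : Fin 3) : Prop :=
  ∃ b c, b ≠ a ∧ c ≠ a ∧ b ≠ c ∧ Sbtw ℝ (x b) (x a) (x c)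

/-- The solution has finitely many eclipses and `w` is its eclipse sequence: `τ` lists in
increasing order all the times at which the three bodies are collinear and `w` the labels. -/
def EclipseSequence (q : ℝ → Fin 3 → ℂ) (w : List (Fin 3)) : Prop :=
  ∃ τ : List ℝ, τ.Pairwise (· < ·) ∧ (∀ t, t ∈ τ ↔ Collinear ℝ (Set.range (q t))) ∧
    List.Forall₂ (fun t a => EclipseLabel (q t) a) τ w

/-- No two consecutive letters are equal. -/
def NoStutter (w : List (Fin 3)) : Prop := w.IsChain (· ≠ ·)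

/-- Deletion of one stutter pair `aa`. -/
def DeleteStutter (w w' : List (Fin 3)) : Prop :=
  ∃ (u v : List (Fin 3)) (a : Fin 3), w = u ++ a :: a :: v ∧ w' = u ++ v

/-- `r` is obtained from `w` by deleting stutter pairs repeatedly until none remain. -/
def ReducedForm (w r : List (Fin 3)) : Prop :=
  Relation.ReflTransGen DeleteStutter w r ∧ NoStutter r

section words

lemma sublist_of_delete {w w' : List (Fin 3)} (h : DeleteStutter w w') : w'.Sublist w := by
  obtain ⟨u, v, a, rfl, rfl⟩ := h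
  exact List.Sublist.append_left ((List.sublist_cons_self a v).trans
    (List.sublist_cons_self a (a :: v))) u

lemma sublist_of_reduce {w r : List (Fin 3)} (h : Relation.ReflTransGen DeleteStutter w r) :
    r.Sublist w := by
  induction h with
  | refl => exact List.Sublist.refl _
  | tail _ h2 ih => exact (sublist_of_delete h2).trans ih

lemma forall₂_sublist {α β : Type} {R : α → β → Prop} {τ : List α} {w r : List β}
    (h : List.Forall₂ R τ w) (hr : r.Sublist w) : ∃ τ' : List α, τ'.Sublist τ ∧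
      List.Forall₂ R τ' r := by
  induction hr generalizing τ with
  | slnil => exact ⟨[], List.nil_sublist _, List.Forall₂.nil⟩
  | cons a _ ih =>
    cases h with
    | cons h1 h2 =>
      obtain ⟨τ', g1, g2⟩ := ih h2
      exact ⟨τ', g1.cons _, g2⟩
  | cons_cons a _ ih =>
    cases h with
    | cons h1 h2 =>
      obtain ⟨τ', g1, g2⟩ := ih h2
      exact ⟨_, g1.cons_cons _, List.Forall₂.cons h1 g2⟩

end words

open Pool.Agent.Work.MP_877ce7_an

/-- transfer of solutions -/
lemma exists_traj {m : Fin 3 → ℝ} (hm : ∀ a, 0 < m a) {q : ℝ → Fin 3 → ℂ}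
    (h : IsSolution m q) : ∃ S : Traj (m 0) (m 1) (m 2), (∀ t, S.q₁ t = q t 0) ∧
      (∀ t, S.q₂ t = q t 1) ∧ (∀ t, S.q₃ t = q t 2) ∧
      (∀ t, S.v₁ t = deriv (fun s => q s 0) t) ∧ (∀ t, S.v₂ t = deriv (fun s => q s 1) t) ∧
      (∀ t, S.v₃ t = deriv (fun s => q s 2) t) := by
  have hd : ∀ a t, HasDerivAt (fun s => q s a) (deriv (fun s => q s a) t) t := fun a t =>
    ((h.smooth a).differentiable (by norm_num)).differentiableAt.hasDerivAt
  have hdd : ∀ a t, HasDerivAt (deriv (fun s => q s a)) (deriv (deriv (fun s => q s a)) t) t := by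
    intro a t
    have h1 : ContDiff ℝ (1 + 1) (fun s => q s a) := by
      have := h.smooth a
      norm_num
      exact this
    have h2 := ((contDiff_succ_iff_deriv (n := 1)).1 h1).2.2
    exact (h2.differentiable (by norm_num)).differentiableAt.hasDerivAt
  have e0 : Finset.univ.erase (0 : Fin 3) = {1, 2} := by decide
  have e1 : Finset.univ.erase (1 : Fin 3) = {0, 2} := by decide
  have e2 : Finset.univ.erase (2 : Fin 3) = {0, 1} := by decide
  have key : ∀ (a b c : Fin 3) (t : ℝ), b ≠ c → Finset.univ.erase a = {b, c} →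
      deriv (deriv (fun s => q s a)) t = (m b / ‖q t b - q t a‖ ^ 3) • (q t b - q t a) +
        (m c / ‖q t c - q t a‖ ^ 3) • (q t c - q t a) := by
    intro a b c t hbc he
    have h1 := h.newton t a
    rw [he, Finset.sum_pair hbc] at h1
    have h2 : m a ≠ 0 := (hm a).ne'
    have h3 : deriv (deriv (fun s => q s a)) t =
        (1 / m a) • (m a • deriv (deriv (fun s => q s a)) t) := by
      rw [smul_smul, one_div, inv_mul_cancel₀ h2, one_smul]
    rw [h3, h1, smul_add, smul_smul, smul_smul]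
    congr 2
    · field_simp
    · field_simp
  refine ⟨⟨fun t => q t 0, fun t => q t 1, fun t => q t 2, deriv (fun s => q s 0),
    deriv (fun s => q s 1), deriv (fun s => q s 2), ?_⟩, fun _ => rfl, fun _ => rfl, fun _ => rfl,
    fun _ => rfl, fun _ => rfl, fun _ => rfl⟩
  refine ⟨hm 0, hm 1, hm 2, ?_, ?_, ?_, ?_, hd 0, hd 1, hd 2, ?_, ?_, ?_⟩
  · intro t
    have := h.centre t
    rwa [Fin.sum_univ_three] at this
  · intro t; exact h.collisionFree t 0 1 (by decide)
  · intro t; exact h.collisionFree t 0 2 (by decide)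
  · intro t; exact h.collisionFree t 1 2 (by decide)
  · intro t
    rw [← key 0 1 2 t (by decide) e0]
    exact hdd 0 t
  · intro t
    have := key 1 2 0 t (by decide) (by rw [e1]; decide)
    rw [← this]
    exact hdd 1 t
  · intro t
    rw [← key 2 0 1 t (by decide) e2]
    exact hdd 2 t

lemma traj_I {m : Fin 3 → ℝ} {q : ℝ → Fin 3 → ℂ} (S : Traj (m 0) (m 1) (m 2))
    (h1 : ∀ t, S.q₁ t = q t 0) (h2 : ∀ t, S.q₂ t = q t 1) (h3 : ∀ t, S.q₃ t = q t 2) (t : ℝ) :
    S.s t ^ 2 = massNorm m (q t) := by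
  rw [S.s_sq]
  unfold massNorm Traj.I
  rw [Fin.sum_univ_three, h1, h2, h3, dot_self, dot_self, dot_self]

lemma traj_E {m : Fin 3 → ℝ} {q : ℝ → Fin 3 → ℂ} (S : Traj (m 0) (m 1) (m 2))
    (h1 : ∀ t, S.q₁ t = q t 0) (h2 : ∀ t, S.q₂ t = q t 1) (h3 : ∀ t, S.q₃ t = q t 2)
    (g1 : ∀ t, S.v₁ t = deriv (fun s => q s 0) t) (g2 : ∀ t, S.v₂ t = deriv (fun s => q s 1) t)
    (g3 : ∀ t, S.v₃ t = deriv (fun s => q s 2) t) : S.E = energy m q 0 := by
  have i0 : Finset.Ioi (0 : Fin 3) = {1, 2} := by decide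
  have i1 : Finset.Ioi (1 : Fin 3) = {2} := by decide
  have i2 : Finset.Ioi (2 : Fin 3) = ∅ := by decide
  unfold Traj.E energy Traj.T Traj.U
  rw [Fin.sum_univ_three, Fin.sum_univ_three, i0, i1, i2, Finset.sum_empty, Finset.sum_singleton,
    Finset.sum_pair (by decide), h1, h2, h3, g1, g2, g3, dot_self, dot_self, dot_self,
    norm_sub_rev (q 0 1) (q 0 0), norm_sub_rev (q 0 2) (q 0 1)]
  ring

lemma end_sep {m : Fin 3 → ℝ} {q : ℝ → Fin 3 → ℂ} (S : Traj (m 0) (m 1) (m 2))
    (h1 : ∀ t, S.q₁ t = q t 0) (h2 : ∀ t, S.q₂ t = q t 1) (h3 : ∀ t, S.q₃ t = q t 2)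
    {l : Filter ℝ} {x : Fin 3 → ℂ} (hx : CollisionFree x)
    (hl : Tendsto (fun t => (1 / massNorm m (q t)) • q t) l (𝓝 x)) :
    ∃ c > 0, ∀ᶠ t in l, S.Sep c t := by
  have key : ∀ a b : Fin 3, a ≠ b → ∃ c > 0, ∀ᶠ t in l, c * S.s t ^ 2 ≤ ‖q t a - q t b‖ := by
    intro a b hab
    have hpos : 0 < ‖x a - x b‖ := norm_pos_iff.2 (sub_ne_zero.2 (hx a b hab))
    have t1 : Tendsto (fun t => ((1 / massNorm m (q t)) • q t) a -
        ((1 / massNorm m (q t)) • q t) b) l (𝓝 (x a - x b)) :=
      ((tendsto_pi_nhds.1 hl) a).sub ((tendsto_pi_nhds.1 hl) b)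
    have t2 := t1.norm
    refine ⟨‖x a - x b‖ / 2, by positivity, ?_⟩
    have ev := t2.eventually (lt_mem_nhds (show ‖x a - x b‖ / 2 < ‖x a - x b‖ by linarith))
    filter_upwards [ev] with t ht
    have hs := S.s_pos t
    rw [traj_I S h1 h2 h3 t]
    have hM : 0 < massNorm m (q t) := by
      rw [← traj_I S h1 h2 h3 t]; positivity
    have e1 : ((1 / massNorm m (q t)) • q t) a - ((1 / massNorm m (q t)) • q t) b =
        (1 / massNorm m (q t)) • (q t a - q t b) := by
      simp only [Pi.smul_apply, smul_sub]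
    rw [e1, norm_smul, Real.norm_of_nonneg (by positivity), one_div, inv_mul_eq_div,
      lt_div_iff₀ hM] at ht
    exact ht.le
  obtain ⟨c1, p1, k1⟩ := key 1 0 (by decide)
  obtain ⟨c2, p2, k2⟩ := key 2 1 (by decide)
  obtain ⟨c3, p3, k3⟩ := key 0 2 (by decide)
  refine ⟨min c1 (min c2 c3), by positivity, ?_⟩
  filter_upwards [k1, k2, k3] with t g1 g2 g3
  have hs := S.s_pos t
  refine ⟨?_, ?_, ?_⟩
  · rw [h1, h2]
    refine le_trans ?_ g1
    gcongr
    exact min_le_left _ _
  · rw [h2, h3]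
    refine le_trans ?_ g2
    gcongr
    exact (min_le_right _ _).trans (min_le_left _ _)
  · rw [h1, h3]
    refine le_trans ?_ g3
    gcongr
    exact (min_le_right _ _).trans (min_le_right _ _)

lemma traj_ends {m : Fin 3 → ℝ} {q : ℝ → Fin 3 → ℂ} (S : Traj (m 0) (m 1) (m 2))
    (h1 : ∀ t, S.q₁ t = q t 0) (h2 : ∀ t, S.q₂ t = q t 1) (h3 : ∀ t, S.q₃ t = q t 2)
    (h : IsHyperbolic m q) : S.Ends := by
  obtain ⟨x, hx, hl⟩ := h.past
  obtain ⟨y, hy, hr⟩ := h.future
  obtain ⟨c1, p1, k1⟩ := end_sep S h1 h2 h3 hx hl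
  obtain ⟨c2, p2, k2⟩ := end_sep S h1 h2 h3 hy hr
  have weaken : ∀ c c' t, c' ≤ c → S.Sep c t → S.Sep c' t := by
    intro c c' t hc hsep
    have hs := S.s_pos t
    exact ⟨le_trans (by gcongr) hsep.s21, le_trans (by gcongr) hsep.s32,
      le_trans (by gcongr) hsep.s13⟩
  refine ⟨min c1 c2, by positivity, ?_, ?_⟩
  · filter_upwards [k2] with t ht
    exact weaken _ _ t (min_le_right _ _) ht
  · filter_upwards [k1] with t ht
    exact weaken _ _ t (min_le_left _ _) ht

/-- geometry of a strict betweenness -/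
lemma sbtw_facts {x y z : ℂ} (h : Sbtw ℝ x y z) :
    crs (y - x) (z - x) = 0 ∧ dot (x - y) (z - y) < 0 ∧ 0 < dot (y - x) (z - x) ∧
      0 < dot (y - z) (x - z) := by
  obtain ⟨⟨s, ⟨hs0, hs1⟩, hsy⟩, hyx, hyz⟩ := h
  have hy : y = x + s • (z - x) := by
    rw [← hsy, AffineMap.lineMap_apply, vsub_eq_sub, vadd_eq_add, add_comm]
  have hs0' : 0 < s := by
    rcases hs0.lt_or_eq with h | h
    · exact h
    · exfalso; apply hyx; rw [hy, ← h]; simp
  have hs1' : s < 1 := by
    rcases hs1.lt_or_eq with h | h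
    · exact h
    · exfalso; apply hyz; rw [hy, h]; simp
  have hzx : z - x ≠ 0 := by
    intro h0
    apply hyx
    rw [hy, h0]; simp
  have hn : 0 < dot (z - x) (z - x) := by
    rw [dot_self]
    have := norm_pos_iff.2 hzx
    positivity
  have e1 : y - x = s • (z - x) := by rw [hy]; abel
  have e2 : x - y = (-s) • (z - x) := by rw [hy, neg_smul]; abel
  have e3 : z - y = (1 - s) • (z - x) := by rw [hy, sub_smul, one_smul]; abel
  have e4 : y - z = (s - 1) • (z - x) := by rw [hy, sub_smul, one_smul]; abel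
  have e5 : x - z = (-1 : ℝ) • (z - x) := by simp
  refine ⟨?_, ?_, ?_, ?_⟩
  · rw [e1, crs_smul_left, crs_self, mul_zero]
  · rw [e2, e3, dot_smul_left, dot_smul_right]
    have : 0 < s * ((1 - s) * dot (z - x) (z - x)) :=
      mul_pos hs0' (mul_pos (by linarith) hn)
    linarith
  · rw [e1, dot_smul_left]
    positivity
  · rw [e4, e5, dot_smul_left, dot_smul_right]
    have : 0 < (1 - s) * dot (z - x) (z - x) := mul_pos (by linarith) hn
    linarith

/-- The sign data of a labelled eclipse. -/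
lemma label_facts {x : Fin 3 → ℂ} {a : Fin 3} (h : EclipseLabel x a) :
    crs (x 1 - x 0) (x 2 - x 0) = 0 ∧
    (if a = 0 then dot (x 1 - x 0) (x 2 - x 0) < 0 else 0 < dot (x 1 - x 0) (x 2 - x 0)) ∧
    (if a = 1 then dot (x 2 - x 1) (x 0 - x 1) < 0 else 0 < dot (x 2 - x 1) (x 0 - x 1)) ∧
    (if a = 2 then dot (x 0 - x 2) (x 1 - x 2) < 0 else 0 < dot (x 0 - x 2) (x 1 - x 2)) := by
  obtain ⟨b, c, hb, hc, hbc, hs⟩ := h
  obtain ⟨f1, f2, f3, f4⟩ := sbtw_facts hs
  have hcr : ∀ u v w : ℂ, crs (v - u) (w - u) = 0 → crs (u - v) (w - v) = 0 ∧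
      crs (w - u) (v - u) = 0 := by
    intro u v w huvw
    unfold crs at *
    simp only [Complex.sub_re, Complex.sub_im] at *
    constructor <;> linarith
  obtain ⟨k1, k2⟩ := hcr _ _ _ f1
  obtain ⟨k3, k4⟩ := hcr _ _ _ k1
  obtain ⟨k5, k6⟩ := hcr _ _ _ k2
  obtain ⟨k7, k8⟩ := hcr _ _ _ k4
  have g2 : dot (x c - x a) (x b - x a) < 0 := by rw [dot_comm]; exact f2
  have g3 : 0 < dot (x c - x b) (x a - x b) := by rw [dot_comm]; exact f3
  have g4 : 0 < dot (x b - x c) (x a - x c) := by rw [dot_comm]; exact f4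
  fin_cases a <;> fin_cases b <;> fin_cases c <;> simp_all

/-- Sanity check: the label of an eclipse is unique. -/
lemma label_unique {x : Fin 3 → ℂ} {a b : Fin 3} (ha : EclipseLabel x a) (hb : EclipseLabel x b) :
    a = b := by
  obtain ⟨-, d0, d1, d2⟩ := label_facts ha
  obtain ⟨-, d0', d1', d2'⟩ := label_facts hb
  fin_cases a <;> fin_cases b <;> simp_all <;> linarith

lemma range_eq (x : Fin 3 → ℂ) : Set.range x = {x 0, x 1, x 2} := by
  ext z
  simp only [Set.mem_range, Set.mem_insert_iff, Set.mem_singleton_iff]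
  constructor
  · rintro ⟨a, rfl⟩
    fin_cases a <;> simp
  · rintro (h | h | h)
    · exact ⟨0, h.symm⟩
    · exact ⟨1, h.symm⟩
    · exact ⟨2, h.symm⟩

/-- Sanity check: a collision-free configuration is collinear exactly when it has a label. -/
lemma collinear_iff_label {x : Fin 3 → ℂ} (hx : CollisionFree x) :
    Collinear ℝ (Set.range x) ↔ ∃ a, EclipseLabel x a := by
  constructor
  · intro h
    rw [range_eq] at h
    rcases h.wbtw_or_wbtw_or_wbtw with h1 | h1 | h1
    · exact ⟨1, 0, 2, by decide, by decide, by decide, h1, hx 1 0 (by decide), hx 1 2 (by decide)⟩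
    · exact ⟨2, 1, 0, by decide, by decide, by decide, h1, hx 2 1 (by decide), hx 2 0 (by decide)⟩
    · exact ⟨0, 2, 1, by decide, by decide, by decide, h1, hx 0 2 (by decide), hx 0 1 (by decide)⟩
  · rintro ⟨a, b, c, hb, hc, hbc, hs⟩
    have h1 := hs.1.collinear
    refine h1.subset ?_
    rintro z ⟨d, rfl⟩
    have : d = b ∨ d = a ∨ d = c := by
      clear hs h1 hx
      revert d hb hc hbc
      revert a b c
      decide
    rcases this with h | h | h <;> simp [h]

lemma change_of_labels {m : Fin 3 → ℝ} {q : ℝ → Fin 3 → ℂ} (S : Traj (m 0) (m 1) (m 2))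
    (h1 : ∀ t, S.q₁ t = q t 0) (h2 : ∀ t, S.q₂ t = q t 1) (h3 : ∀ t, S.q₃ t = q t 2)
    {t t' : ℝ} {a a' : Fin 3} (ha : EclipseLabel (q t) a) (ha' : EclipseLabel (q t') a')
    (hne : a ≠ a') : S.PP t t' := by
  obtain ⟨x1, d0, d1, d2⟩ := label_facts ha
  obtain ⟨x1', d0', d1', d2'⟩ := label_facts ha'
  have hX : ∀ u, S.X u = crs (q u 1 - q u 0) (q u 2 - q u 0) := by
    intro u; unfold Traj.X; rw [h1, h2, h3]
  have hD0 : ∀ u, S.D u = dot (q u 1 - q u 0) (q u 2 - q u 0) := by
    intro u; unfold Traj.D; rw [h1, h2, h3]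
  have hD1 : ∀ u, S.rot.D u = dot (q u 2 - q u 1) (q u 0 - q u 1) := by
    intro u
    have : S.rot.D u = dot (S.q₃ u - S.q₂ u) (S.q₁ u - S.q₂ u) := rfl
    rw [this, h1, h2, h3]
  have hD2 : ∀ u, S.rot.rot.D u = dot (q u 0 - q u 2) (q u 1 - q u 2) := by
    intro u
    have : S.rot.rot.D u = dot (S.q₁ u - S.q₃ u) (S.q₂ u - S.q₃ u) := rfl
    rw [this, h1, h2, h3]
  unfold Traj.PP Traj.Ch
  simp only [Traj.rot_X, hX, hD0, hD1, hD2]
  fin_cases a <;> fin_cases a' <;> simp_all

/-- a stutter-free list of labels produces label changes -/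
lemma tr_of_list {m : Fin 3 → ℝ} {q : ℝ → Fin 3 → ℂ} (S : Traj (m 0) (m 1) (m 2))
    (h1 : ∀ t, S.q₁ t = q t 0) (h2 : ∀ t, S.q₂ t = q t 1) (h3 : ∀ t, S.q₃ t = q t 2) :
    ∀ (τ : List ℝ) (w : List (Fin 3)) (t : ℝ) (a : Fin 3), (t :: τ).Pairwise (· < ·) →
      List.Forall₂ (fun t a => EclipseLabel (q t) a) (t :: τ) (a :: w) →
      NoStutter (a :: w) → ∃ b, Tr S.PP w.length t b
  | [], [], t, _, _, _, _ => ⟨t, le_refl t⟩
  | [], _ :: _, _, _, _, h, _ => by
    cases h with
    | cons _ h' => cases h'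
  | _ :: _, [], _, _, _, h, _ => by
    cases h with
    | cons _ h' => cases h'
  | t' :: τ, a' :: w, t, a, hp, hf, hn => by
    have hf1 := (List.forall₂_cons.1 hf).1
    have hf2 := (List.forall₂_cons.1 hf).2
    have hf3 := (List.forall₂_cons.1 hf2).1
    have hp1 := (List.pairwise_cons.1 hp).1
    have hp2 := (List.pairwise_cons.1 hp).2
    have hn' : a ≠ a' ∧ (a' :: w).IsChain (· ≠ ·) := by
      have := hn
      unfold NoStutter at this
      rwa [List.isChain_cons_cons] at this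
    obtain ⟨b, hb⟩ := tr_of_list S h1 h2 h3 τ w t' a' hp2 hf2 hn'.2
    exact ⟨b, t, t', le_rfl, (hp1 t' (by simp)).le,
      change_of_labels S h1 h2 h3 hf1 hf3 hn'.1, hb⟩

/-- **Main theorem.** For all positive masses there is a bound `N` such that every hyperbolic
solution with finitely many eclipses has a reduced eclipse sequence of length at most `N`.
Moreover any stutter-free list of labels of eclipses at increasing times has length at most `N`. -/
theorem result (m : Fin 3 → ℝ) (hm : ∀ a, 0 < m a) :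
    ∃ N : ℕ, ∀ q : ℝ → Fin 3 → ℂ, IsHyperbolic m q →
      (∀ w r : List (Fin 3), EclipseSequence q w → ReducedForm w r → r.length ≤ N) ∧
      (∀ (τ : List ℝ) (w : List (Fin 3)), τ.Pairwise (· < ·) →
        List.Forall₂ (fun t a => EclipseLabel (q t) a) τ w → NoStutter w → w.length ≤ N) := by
  obtain ⟨N, hN⟩ := main_traj (m 0) (m 1) (m 2) (hm 0) (hm 1) (hm 2)
  refine ⟨N, ?_⟩
  intro q hq
  obtain ⟨S, h1, h2, h3, g1, g2, g3⟩ := exists_traj hm hq.solution
  have hE : 0 < S.E := by
    rw [traj_E S h1 h2 h3 g1 g2 g3]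
    exact hq.energy_pos
  have hends := traj_ends S h1 h2 h3 hq
  have main : ∀ (τ : List ℝ) (w : List (Fin 3)), τ.Pairwise (· < ·) →
      List.Forall₂ (fun t a => EclipseLabel (q t) a) τ w → NoStutter w → w.length ≤ N := by
    intro τ w hp hf hn
    cases hf with
    | nil => simp
    | @cons t a τ w ht hf' =>
      obtain ⟨b, hb⟩ := tr_of_list S h1 h2 h3 τ w t a hp (List.Forall₂.cons ht hf') hn
      have := hN S hE hends _ _ _ hb
      simp only [List.length_cons]
      omega
  refine ⟨?_, main⟩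
  intro w r ⟨τ, hp, _, hf⟩ ⟨hr, hn⟩
  obtain ⟨τ', s1, s2⟩ := forall₂_sublist hf (sublist_of_reduce hr)
  exact main τ' r (hp.sublist s1) s2 hn

end Pool.Agent.Results.MP_877ce7_an.BoundedEclipses
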